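import Pool.Agent.H83.D3N.Fin
import Pool.Agent.H81.D3.CHS
import Pool.Agent.H88.B2.Lemn

set_option autoImplicit false

namespace Pool.Agent.H88.D3

theorem fin : ∃ p₀ : ℝ, p₀ < 10 / 3 ∧ ∀ p : ℝ, p₀ ≤ p → Pool.Agent.H81.GT.Q1at 2 p :=
  Pool.Agent.H83.D3N.Fin.fin_of Pool.Agent.H81.D3.CHS.pf_CHS Pool.Agent.H88.B2.All.lemn

end Pool.Agent.H88.D3
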